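import Pool.Agent.H692R2.FinGraph
import Pool.Agent.H673R2.HardOn

/-!
# Total domination and sub-total domination: definitions and general facts
-/

set_option autoImplicit false

namespace Pool.Agent.D0H57.TDS

open Pool.Agent.NPC Pool.Agent.H692R2

/-- `S` is a total dominating set of `G`: every vertex has a neighbour in `S`. -/
def IsTotalDom {n : ℕ} (G : SimpleGraph (Fin n)) (S : Finset (Fin n)) : Prop :=
  ∀ v, ∃ w ∈ S, G.Adj v w

/-- The total domination number `γ_t(G)`: the minimum size of a total dominating set. -/
noncomputable def gammaT {n : ℕ} (G : SimpleGraph (Fin n)) : ℕ :=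
  sInf {k : ℕ | ∃ S : Finset (Fin n), IsTotalDom G S ∧ S.card = k}

open Classical in
/-- The degree sequence `d_1 ≥ d_2 ≥ ... ≥ d_n` of `G`, in non-increasing order. -/
noncomputable def degSeq {n : ℕ} (G : SimpleGraph (Fin n)) : List ℕ :=
  ((Finset.univ : Finset (Fin n)).val.map (fun v => G.degree v)).sort (· ≥ ·)

/-- The sub-total domination number `sub_t(G)`: the least `k` with `d_1 + ... + d_k ≥ n`. -/
noncomputable def subT {n : ℕ} (G : SimpleGraph (Fin n)) : ℕ :=
  sInf {k : ℕ | n ≤ ((degSeq G).take k).sum}

/-- `G` has no isolated vertices. -/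
def NoIsolated {n : ℕ} (G : SimpleGraph (Fin n)) : Prop := ∀ v, ∃ w, G.Adj v w

/-- The decision problem TDS-EQ: the input is a finite graph `G` without isolated vertices, and the
question is whether `γ_t(G) = sub_t(G)`. -/
def TDSEQ (G : FinGraph) : Prop := NoIsolated G.graph ∧ gammaT G.graph = subT G.graph

/-! ### Sums of the largest entries of a list -/

theorem take_sum_le {l : List ℕ} {M : ℕ} (h : ∀ x ∈ l, x ≤ M) (k : ℕ) :
    (l.take k).sum ≤ k * M := by
  induction k generalizing l with
  | zero => simp
  | succ k ih =>
    cases l with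
    | nil => simp
    | cons a l =>
      rw [List.take_succ_cons, List.sum_cons, Nat.succ_mul, Nat.add_comm]
      exact Nat.add_le_add (ih fun x hx => h x (List.mem_cons_of_mem _ hx))
        (h a List.mem_cons_self)

theorem take_sum_mono {l : List ℕ} {k k' : ℕ} (h : k ≤ k') :
    (l.take k).sum ≤ (l.take k').sum := by
  induction k generalizing l k' with
  | zero => simp
  | succ k ih =>
    cases l with
    | nil => simp
    | cons a l =>
      cases k' with
      | zero => omega
      | succ k' =>
        rw [List.take_succ_cons, List.take_succ_cons, List.sum_cons, List.sum_cons]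
        exact Nat.add_le_add_left (ih (by omega)) _

/-- The duality bound: `∑_{i < k} l_i ≤ k d + ∑ (l_i - d)` (truncated subtraction). -/
theorem take_sum_le_dual (l : List ℕ) (k d : ℕ) :
    (l.take k).sum ≤ k * d + (l.map (fun x => x - d)).sum := by
  induction k generalizing l with
  | zero => simp
  | succ k ih =>
    cases l with
    | nil => simp
    | cons a l =>
      rw [List.take_succ_cons, List.sum_cons, List.map_cons, List.sum_cons, Nat.succ_mul]
      have := ih l
      omega

/-- the bound is attained at `l_{k-1}` -/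
theorem take_sum_eq_dual {l : List ℕ} (hl : l.Pairwise (· ≥ ·)) {k : ℕ} (hk : 0 < k)
    (hkl : k ≤ l.length) :
    ∃ d ∈ l, (l.take k).sum = k * d + (l.map (fun x => x - d)).sum := by
  refine ⟨l[k - 1], List.getElem_mem _, ?_⟩
  have h1 : ∀ x ∈ l.take k, l[k - 1] ≤ x := by
    intro x hx
    obtain ⟨i, hi, rfl⟩ := List.getElem_of_mem hx
    rw [List.length_take] at hi
    rw [List.getElem_take]
    rcases Nat.lt_or_ge i (k - 1) with h | h
    · exact List.pairwise_iff_getElem.1 hl _ _ (by omega) (by omega) h
    · have : i = k - 1 := by omega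
      subst this
      exact le_rfl
  have h2 : ∀ x ∈ l.drop k, x - l[k - 1] = 0 := by
    intro x hx
    obtain ⟨i, hi, rfl⟩ := List.getElem_of_mem hx
    rw [List.length_drop] at hi
    rw [List.getElem_drop]
    have := List.pairwise_iff_getElem.1 hl (k - 1) (k + i) (by omega) (by omega) (by omega)
    omega
  have h3 : (l.map (fun x => x - l[k - 1])).sum =
      ((l.take k).map (fun x => x - l[k - 1])).sum := by
    have e : (l.map (fun x => x - l[k - 1])) =
        ((l.take k ++ l.drop k).map (fun x => x - l[k - 1])) := by
      rw [List.take_append_drop]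
    rw [e, List.map_append, List.sum_append]
    have : ((l.drop k).map (fun x => x - l[k - 1])).sum = 0 := by
      rw [List.sum_eq_zero_iff]
      intro y hy
      obtain ⟨x, hx, rfl⟩ := List.mem_map.1 hy
      exact h2 x hx
    omega
  rw [h3]
  have h4 : ∀ (t : List ℕ) (d : ℕ), (∀ x ∈ t, d ≤ x) →
      t.sum = t.length * d + (t.map (fun x => x - d)).sum := by
    intro t d
    induction t with
    | nil => simp
    | cons a t ih =>
      intro h
      rw [List.sum_cons, List.map_cons, List.sum_cons, List.length_cons, Nat.succ_mul,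
        ih fun x hx => h x (List.mem_cons_of_mem _ hx)]
      have := h a List.mem_cons_self
      omega
  have h5 := h4 (l.take k) (l[k - 1]) h1
  rw [List.length_take, Nat.min_eq_left hkl] at h5
  exact h5

variable {n : ℕ} (G : SimpleGraph (Fin n))

open Classical in
theorem degSeq_perm : List.Perm (degSeq G) (((List.finRange n).map (fun v => G.degree v))) := by
  rw [← Multiset.coe_eq_coe]
  unfold degSeq
  rw [Multiset.sort_eq]
  rfl

theorem length_degSeq : (degSeq G).length = n := by
  classical
  rw [(degSeq_perm G).length_eq, List.length_map, List.length_finRange]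

theorem pairwise_degSeq : (degSeq G).Pairwise (· ≥ ·) := by
  unfold degSeq
  exact Multiset.pairwise_sort _ _

open Classical in
/-- the sum of the degrees of the vertices of a set is at most the sum of the largest degrees -/
theorem sum_degree_le (D : Finset (Fin n)) :
    ∑ v ∈ D, G.degree v ≤ ((degSeq G).take D.card).sum := by
  have hsum : ∀ d, ((degSeq G).map (fun x => x - d)).sum = ∑ v, (G.degree v - d) := by
    intro d
    rw [((degSeq_perm G).map _).sum_eq, List.map_map, ← List.sum_ofFn, List.ofFn_eq_map]
    rfl
  rcases Nat.eq_zero_or_pos D.card with h0 | h0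
  · rw [Finset.card_eq_zero.1 h0]; simp
  · have hle : D.card ≤ (degSeq G).length := by
      rw [length_degSeq]
      simpa using D.card_le_univ
    obtain ⟨d, _, hd⟩ := take_sum_eq_dual (pairwise_degSeq G) h0 hle
    rw [hd, hsum]
    calc ∑ v ∈ D, G.degree v ≤ ∑ v ∈ D, (d + (G.degree v - d)) :=
          Finset.sum_le_sum fun v _ => by omega
      _ = D.card * d + ∑ v ∈ D, (G.degree v - d) := by
          rw [Finset.sum_add_distrib, Finset.sum_const, smul_eq_mul]
      _ ≤ D.card * d + ∑ v, (G.degree v - d) :=
          Nat.add_le_add_left (Finset.sum_le_sum_of_subset (Finset.subset_univ _)) _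

open Classical in
theorem card_le_sum_degree {D : Finset (Fin n)} (h : IsTotalDom G D) :
    n ≤ ∑ v ∈ D, G.degree v := by
  have h1 : (Finset.univ : Finset (Fin n)) ⊆ D.biUnion (fun w => G.neighborFinset w) := by
    intro v _
    obtain ⟨w, hw, hvw⟩ := h v
    rw [Finset.mem_biUnion]
    exact ⟨w, hw, by rw [SimpleGraph.mem_neighborFinset]; exact hvw.symm⟩
  have h2 := (Finset.card_le_card h1).trans Finset.card_biUnion_le
  rw [Finset.card_univ, Fintype.card_fin] at h2
  simpa using h2

/-- `sub_t(G)` is a lower bound of the size of every total dominating set. -/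
theorem subT_le {D : Finset (Fin n)} (h : IsTotalDom G D) : subT G ≤ D.card := by
  classical
  exact Nat.sInf_le ((card_le_sum_degree G h).trans (sum_degree_le G D))

theorem le_subT_iff {D : Finset (Fin n)} (h : IsTotalDom G D) (k : ℕ) :
    k + 1 ≤ subT G ↔ ((degSeq G).take k).sum < n := by
  have hne : {k : ℕ | n ≤ ((degSeq G).take k).sum}.Nonempty :=
    ⟨D.card, by classical exact (card_le_sum_degree G h).trans (sum_degree_le G D)⟩
  constructor
  · intro hk
    by_contra hc
    have : subT G ≤ k := Nat.sInf_le (not_lt.1 hc)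
    omega
  · intro hk
    by_contra hc
    have h1 : n ≤ ((degSeq G).take (subT G)).sum := Nat.sInf_mem hne
    have h2 := take_sum_mono (l := degSeq G) (show subT G ≤ k by omega)
    omega

/-- `γ_t(G) = sub_t(G)` if and only if there is a total dominating set of size at most
`sub_t(G)`. -/
theorem eq_iff (hG : NoIsolated G) :
    gammaT G = subT G ↔ ∃ D : Finset (Fin n), IsTotalDom G D ∧ D.card ≤ subT G := by
  have hne : {k : ℕ | ∃ S : Finset (Fin n), IsTotalDom G S ∧ S.card = k}.Nonempty :=
    ⟨_, Finset.univ, fun v => by
      obtain ⟨w, hw⟩ := hG v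
      exact ⟨w, Finset.mem_univ _, hw⟩, rfl⟩
  constructor
  · intro h
    obtain ⟨D, hD, hc⟩ := Nat.sInf_mem hne
    exact ⟨D, hD, by rw [hc, ← h]; exact le_rfl⟩
  · rintro ⟨D, hD, hc⟩
    obtain ⟨D', hD', hc'⟩ := Nat.sInf_mem hne
    have h1 : gammaT G ≤ D.card := Nat.sInf_le ⟨D, hD, rfl⟩
    have h2 := subT_le G hD'
    have h3 : D'.card = gammaT G := hc'
    omega

end Pool.Agent.D0H57.TDS
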