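import Pool.Agent.D0H57.TDS.Defs
import Pool.Agent.R542.GI.Dec
import Pool.Agent.H671R2.PolyAuto

/-!
# TDS-EQ is in NP
-/

set_option autoImplicit false

namespace Pool.Agent.D0H57.TDS

open Pool.Agent.NPC Pool.Agent.H692R2 Pool.Agent.NPC.R542 Pool.Agent.NPC.R542.GI

/-- the degree of a vertex, computed from the matrix -/
noncomputable def degB (G : FinGraph) (v : ℕ) : ℕ :=
  ((List.range G.n).filter (fun u => adjB G v u)).length

/-- the size of the set in a certificate -/
noncomputable def cardB (G : FinGraph) (w : List Bool) : ℕ :=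
  ((List.range G.n).filter (fun u => w.getD u false)).length

/-- the test for the sum of the largest degrees -/
noncomputable def testB (G : FinGraph) (k d : ℕ) : Bool :=
  decide (k * d + ((List.range G.n).map (fun v => degB G v - d)).sum < G.n)

/-- the verifier -/
noncomputable def chk (q : FinGraph × List Bool) : Bool :=
  ((List.range q.1.n).all fun v => (List.range q.1.n).any fun u =>
    adjB q.1 v u && q.2.getD u false) &&
  (decide (cardB q.1 q.2 = 0) ||
    (List.range (q.1.n + 1)).any fun d => testB q.1 (cardB q.1 q.2 - 1) d)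

theorem poly_degB {α : Type} [TEnc α] {G : α → FinGraph} {v : α → ℕ} (hG : Poly G)
    (hv : Poly v) : Poly (fun a => degB (G a) (v a)) := by
  have h1 : Poly (fun a => List.range (G a).n) := (upoly_n hG).range
  have h2 : Poly (fun p : α × ℕ => adjB (G p.1) (v p.1) p.2) :=
    poly_adjB (hG.comp (Poly.fst Poly.id)) (hv.comp (Poly.fst Poly.id)) (Poly.snd Poly.id)
  unfold degB
  fun_prop

theorem poly_cardB {α : Type} [TEnc α] {G : α → FinGraph} {w : α → List Bool} (hG : Poly G)
    (hw : Poly w) : Poly (fun a => cardB (G a) (w a)) := by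
  have h1 : Poly (fun a => List.range (G a).n) := (upoly_n hG).range
  unfold cardB
  fun_prop

theorem poly_testB {α : Type} [TEnc α] {G : α → FinGraph} {k d : α → ℕ} (hG : Poly G)
    (hk : Poly k) (hd : Poly d) : Poly (fun a => testB (G a) (k a) (d a)) := by
  have h1 : Poly (fun a => List.range (G a).n) := (upoly_n hG).range
  have h2 : Poly (fun p : α × ℕ => degB (G p.1) p.2) :=
    poly_degB (hG.comp (Poly.fst Poly.id)) (Poly.snd Poly.id)
  have h3 : Poly (fun a => (G a).n) := poly_n hG
  unfold testB
  fun_prop

theorem poly_chk : Poly chk := by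
  have hG : Poly (fun q : FinGraph × List Bool => q.1) := Poly.fst Poly.id
  have hw : Poly (fun q : FinGraph × List Bool => q.2) := Poly.snd Poly.id
  have h1 : Poly (fun q : FinGraph × List Bool => List.range q.1.n) := (upoly_n hG).range
  have h2 : Poly (fun q : FinGraph × List Bool => List.range (q.1.n + 1)) :=
    ((upoly_n hG).add (UPoly.const 1)).range
  have h3 : Poly (fun p : ((FinGraph × List Bool) × ℕ) × ℕ => adjB p.1.1.1 p.1.2 p.2) :=
    poly_adjB (by fun_prop) (by fun_prop) (by fun_prop)
  have h4 : Poly (fun q : FinGraph × List Bool => cardB q.1 q.2) := poly_cardB hG hw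
  have h5 : Poly (fun p : (FinGraph × List Bool) × ℕ => testB p.1.1 (cardB p.1.1 p.1.2 - 1) p.2) :=
    poly_testB (by fun_prop) (by fun_prop) (by fun_prop)
  unfold chk
  refine Poly.and ?_ (Poly.or ?_ ?_)
  · refine Poly.all (l := fun q : FinGraph × List Bool => List.range q.1.n) h1 ?_
    refine Poly.any (l := fun p : (FinGraph × List Bool) × ℕ => List.range p.1.1.n)
      (h1.comp (Poly.fst Poly.id)) ?_
    fun_prop
  · fun_prop
  · exact Poly.any (l := fun q : FinGraph × List Bool => List.range (q.1.n + 1)) h2 h5

theorem length_filter_range (n : ℕ) (p : ℕ → Bool) :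
    ((List.range n).filter p).length =
      ((Finset.univ : Finset (Fin n)).filter (fun i : Fin n => p (i : ℕ) = true)).card := by
  have h1 : ((List.range n).filter p).toFinset =
      ((Finset.univ : Finset (Fin n)).filter (fun i : Fin n => p (i : ℕ) = true)).map
        Fin.valEmbedding := by
    ext x
    simp only [List.mem_toFinset, List.mem_filter, List.mem_range, Finset.mem_map,
      Finset.mem_filter, Finset.mem_univ, true_and, Fin.valEmbedding_apply]
    constructor
    · rintro ⟨h1, h2⟩
      exact ⟨⟨x, h1⟩, h2, rfl⟩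
    · rintro ⟨y, h1, rfl⟩
      exact ⟨y.2, h1⟩
  rw [← List.toFinset_card_of_nodup (List.nodup_range.filter _), h1, Finset.card_map]

open Classical in
theorem degB_eq (G : FinGraph) (v : Fin G.n) : degB G v = G.graph.degree v := by
  unfold degB
  rw [length_filter_range, ← SimpleGraph.card_neighborFinset_eq_degree]
  congr 1
  ext w
  simp [adjB_iff]

open Classical in
theorem sum_degB (G : FinGraph) (d : ℕ) : ((List.range G.n).map (fun v => degB G v - d)).sum =
    ((degSeq G.graph).map (fun x => x - d)).sum := by
  rw [((degSeq_perm G.graph).map _).sum_eq, List.map_map]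
  congr 1
  rw [← List.map_coe_finRange_eq_range, List.map_map]
  refine List.map_congr_left fun v _ => ?_
  simp only [Function.comp, degB_eq]

open Classical in
theorem degSeq_le (G : FinGraph) : ∀ x ∈ degSeq G.graph, x ≤ G.n := by
  intro x hx
  have h1 := (degSeq_perm G.graph).mem_iff.1 hx
  obtain ⟨v, _, rfl⟩ := List.mem_map.1 h1
  have := G.graph.degree_lt_card_verts v
  rw [Fintype.card_fin] at this
  exact this.le

theorem test_iff (G : FinGraph) {k : ℕ} (hk : k < G.n) :
    (∃ d ≤ G.n, testB G k d = true) ↔ ((degSeq G.graph).take k).sum < G.n := by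
  unfold testB
  simp only [decide_eq_true_eq, sum_degB]
  constructor
  · rintro ⟨d, _, hd⟩
    exact (take_sum_le_dual _ k d).trans_lt hd
  · intro h
    rcases Nat.eq_zero_or_pos k with rfl | h0
    · refine ⟨G.n, le_rfl, ?_⟩
      have : ((degSeq G.graph).map (fun x => x - G.n)).sum = 0 := by
        rw [List.sum_eq_zero_iff]
        intro y hy
        obtain ⟨x, hx, rfl⟩ := List.mem_map.1 hy
        exact Nat.sub_eq_zero_of_le (degSeq_le G x hx)
      rw [this]
      omega
    · obtain ⟨d, hd, h1⟩ := take_sum_eq_dual (pairwise_degSeq G.graph) h0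
        (by rw [length_degSeq]; exact hk.le)
      exact ⟨d, degSeq_le G d hd, by rw [← h1]; exact h⟩

/-- the set of a certificate -/
def setOf (G : FinGraph) (w : List Bool) : Finset (Fin G.n) :=
  Finset.univ.filter (fun i : Fin G.n => w.getD (i : ℕ) false = true)

theorem cardB_eq (G : FinGraph) (w : List Bool) : cardB G w = (setOf G w).card := by
  unfold cardB setOf
  rw [length_filter_range]

theorem chk_iff (G : FinGraph) (w : List Bool) : chk (G, w) = true ↔
    IsTotalDom G.graph (setOf G w) ∧ (setOf G w).card ≤ subT G.graph := by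
  unfold chk
  rw [Bool.and_eq_true, Bool.or_eq_true, decide_eq_true_eq, cardB_eq]
  have h1 : ((List.range G.n).all fun v => (List.range G.n).any fun u =>
      adjB G v u && w.getD u false) = true ↔ IsTotalDom G.graph (setOf G w) := by
    simp only [List.all_eq_true, List.any_eq_true, List.mem_range, Bool.and_eq_true]
    constructor
    · intro h v
      obtain ⟨u, hu, h2, h3⟩ := h v v.2
      exact ⟨⟨u, hu⟩, Finset.mem_filter.2 ⟨Finset.mem_univ _, h3⟩, (adjB_iff G v ⟨u, hu⟩).1 h2⟩
    · intro h v hv
      obtain ⟨u, hu, h2⟩ := h ⟨v, hv⟩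
      exact ⟨u, u.2, (adjB_iff G ⟨v, hv⟩ u).2 h2, (Finset.mem_filter.1 hu).2⟩
  rw [h1]
  refine and_congr_right fun hD => ?_
  rcases Nat.eq_zero_or_pos (setOf G w).card with h0 | h0
  · simp [h0]
  · have hle : (setOf G w).card ≤ G.n := by simpa using (setOf G w).card_le_univ
    have h2 := test_iff G (k := (setOf G w).card - 1) (by omega)
    have h3 := le_subT_iff G.graph hD ((setOf G w).card - 1)
    rw [Nat.sub_add_cancel h0] at h3
    rw [h3, ← h2]
    simp only [List.any_eq_true, List.mem_range, Nat.lt_succ_iff]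
    constructor
    · rintro (h | h)
      · omega
      · exact h
    · intro h
      exact Or.inr h

theorem tdsEq_iff (G : FinGraph) : TDSEQ G ↔
    ∃ D : Finset (Fin G.n), IsTotalDom G.graph D ∧ D.card ≤ subT G.graph := by
  unfold TDSEQ
  constructor
  · rintro ⟨h1, h2⟩
    exact (eq_iff _ h1).1 h2
  · rintro ⟨D, hD, hc⟩
    have h1 : NoIsolated G.graph := fun v => by
      obtain ⟨w, _, hw⟩ := hD v
      exact ⟨w, hw⟩
    exact ⟨h1, (eq_iff _ h1).2 ⟨D, hD, hc⟩⟩

theorem inNP : InNPP TDSEQ := by
  refine inNPP_of (β := List Bool) poly_chk (Polynomial.X * Polynomial.C (3 + 1) + 1) fun G => ?_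
  rw [tdsEq_iff]
  constructor
  · rintro ⟨D, hD, hc⟩
    classical
    have hw : setOf G (List.ofFn fun i => decide (i ∈ D)) = D := by
      ext i
      unfold setOf
      rw [Finset.mem_filter, List.getD_eq_getElem _ _ (by rw [List.length_ofFn]; exact i.2),
        List.getElem_ofFn]
      simp
    refine ⟨List.ofFn fun i => decide (i ∈ D), ?_, ?_⟩
    · have h1 : ∀ a ∈ List.ofFn (fun i => decide (i ∈ D)), sz a ≤ 3 := by
        intro a _
        cases a <;> decide
      have h2 := sz_le_length_mul _ 3 h1
      have h3 : G.n ≤ sz G := by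
        have h4 := length_lt_sz G.matrix
        rw [matrix_length] at h4
        exact h4.le
      rw [List.length_ofFn] at h2
      simp only [Polynomial.eval_add, Polynomial.eval_mul, Polynomial.eval_X, Polynomial.eval_C,
        Polynomial.eval_one]
      exact h2.trans (Nat.add_le_add_right (Nat.mul_le_mul_right _ h3) 1)
    · rw [chk_iff, hw]
      exact ⟨hD, hc⟩
  · rintro ⟨w, _, hw⟩
    exact ⟨_, (chk_iff G w).1 hw⟩

end Pool.Agent.D0H57.TDS
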