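import Pool.Agent.D0H57.TDS.Defs
import Pool.Agent.Helper640.PDS.Defs
import Pool.Agent.Helper640.PDS.Cov

/-!
# The reduction from exact cover by 3-sets to TDS-EQ
-/

set_option autoImplicit false

namespace Pool.Agent.D0H57.TDS

open Pool.Agent.NPC Pool.Agent.H692R2 Pool.Agent.NPC.H632 Pool.Agent.H640.PDS Pool.Agent.H673R2

abbrev Cd : Type := ℕ × ℕ × ℕ

/-! ### Instances in which all elements are covered -/

/-- number of triples, capped number of 3-sets -/
def cap (I : List Cd × ℕ) : ℕ := min I.2 I.1.length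

theorem cap_eq {I : List Cd × ℕ} (hI : X3CPr I) : cap I = I.2 := Nat.min_eq_left hI.2.2

theorem uPoly_cap : UPoly cap :=
  UPoly.of_le (by unfold cap; fun_prop) (UPoly.length (Poly.fst Poly.id)) fun I => by
    unfold cap; exact Nat.min_le_right _ _

theorem uPoly_len : UPoly (fun I : List Cd × ℕ => I.1.length) := UPoly.length (Poly.fst Poly.id)

/-- all elements are covered -/
def cov (I : List Cd × ℕ) : Bool :=
  (List.range (3 * cap I)).all fun x => I.1.any fun t => decide (x ∈ el t)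

/-- an instance without exact cover -/
def I0 : List Cd × ℕ := ([(0, 1, 2), (0, 3, 4), (1, 3, 5)], 2)

/-- replace an instance with uncovered elements -/
def fix (I : List Cd × ℕ) : List Cd × ℕ := if cov I = true then I else I0

/-- the promise: all elements are covered -/
def Pr2 (I : List Cd × ℕ) : Prop := X3CPr I ∧ ∀ x < 3 * I.2, ∃ s < I.1.length,
  x ∈ el (I.1.getD s (0, 0, 0))

theorem not_I0 : ¬ X3C I0 := by
  rintro ⟨C, hC, hp⟩
  have hl : C.length = 2 := X3C_length hp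
  obtain ⟨a, b, rfl⟩ := List.length_eq_two.1 hl
  have ha := hC a (by simp)
  have hb := hC b (by simp)
  simp only [I0, List.mem_cons, List.not_mem_nil, or_false] at ha hb
  rcases ha with rfl | rfl | rfl <;> rcases hb with rfl | rfl | rfl <;> revert hp <;> decide

theorem pr_I0 : Pr2 I0 := by
  refine ⟨⟨?_, by decide, by decide⟩, ?_⟩
  · decide
  · decide

theorem cov_iff {I : List Cd × ℕ} (hI : X3CPr I) :
    cov I = true ↔ ∀ x < 3 * I.2, ∃ s < I.1.length, x ∈ el (I.1.getD s (0, 0, 0)) := by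
  unfold cov
  rw [cap_eq hI]
  simp only [List.all_eq_true, List.mem_range, List.any_eq_true, decide_eq_true_eq]
  refine forall_congr' fun x => forall_congr' fun _ => ?_
  constructor
  · rintro ⟨t, ht, hx⟩
    obtain ⟨s, hs, rfl⟩ := List.getElem_of_mem ht
    exact ⟨s, hs, by rw [List.getD_eq_getElem _ _ hs]; exact hx⟩
  · rintro ⟨s, hs, hx⟩
    exact ⟨_, getD_mem' hs, hx⟩

theorem poly_fix : Poly fix := by
  have h1 : Poly (fun I : List Cd × ℕ => List.range (3 * cap I)) :=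
    ((UPoly.const 3).mul uPoly_cap).range
  have h2 : Poly cov := by
    unfold cov
    refine Poly.all (p := fun (I : List Cd × ℕ) x => I.1.any fun t => decide (x ∈ el t)) h1 ?_
    unfold el
    fun_prop
  unfold fix
  exact Poly.ite (Poly.decide_bool h2) Poly.id (NPC.Poly.const _)

theorem hardPr_X3C2 : HardPr Pr2 X3C := by
  refine hardPr_X3C.trans poly_fix ?_ ?_
  · intro I hI
    unfold fix
    split_ifs with h
    · exact ⟨hI, (cov_iff hI).1 h⟩
    · exact pr_I0
  · intro I hI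
    unfold fix
    split_ifs with h
    · exact Iff.rfl
    · refine ⟨fun hX => absurd ((cov_iff hI).2 ?_) h, fun hX => absurd hX not_I0⟩
      obtain ⟨Ss, σ, ρ, -, h2, h3, -⟩ := cover_of_x3c hX
      intro x hx
      obtain ⟨h4, h5, h6⟩ := h3 x hx
      refine ⟨σ x, h2 _ h4, ?_⟩
      have h7 := ec_mem (S := I.1) (s := σ x) h5
      rwa [h6] at h7

/-! ### The graph -/

/-- The vertices: the hub `(0, 0, 0)` and its leaf `(0, 0, 1)`, the triples `(1, s, 0)`, and `m`
copies `(2, x, j)` of every element `x`. -/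
def verts (m q : ℕ) : List Cd :=
  ((List.range 1) ×ˢ (List.range 2)).map (Prod.mk 0) ++
    (((List.range m) ×ˢ (List.range 1)).map (Prod.mk 1) ++
      ((List.range (3 * q)) ×ˢ (List.range m)).map (Prod.mk 2))

theorem mem_verts {m q c x i : ℕ} : ((c, x, i) : Cd) ∈ verts m q ↔
    (c = 0 ∧ x = 0 ∧ i < 2) ∨ (c = 1 ∧ x < m ∧ i = 0) ∨ (c = 2 ∧ x < 3 * q ∧ i < m) := by
  unfold verts
  simp only [List.mem_append, List.mem_map, List.mem_product, List.mem_range, Prod.mk.injEq,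
    Prod.exists]
  constructor
  · rintro (⟨a, b, ⟨h1, h2⟩, rfl, rfl, rfl⟩ | ⟨a, b, ⟨h1, h2⟩, rfl, rfl, rfl⟩ |
      ⟨a, b, ⟨h1, h2⟩, rfl, rfl, rfl⟩)
    · exact Or.inl ⟨rfl, by omega, h2⟩
    · exact Or.inr (Or.inl ⟨rfl, h1, by omega⟩)
    · exact Or.inr (Or.inr ⟨rfl, h1, h2⟩)
  · rintro (⟨rfl, h1, h2⟩ | ⟨rfl, h1, h2⟩ | ⟨rfl, h1, h2⟩)
    · exact Or.inl ⟨x, i, ⟨by omega, h2⟩, rfl, rfl, rfl⟩
    · exact Or.inr (Or.inl ⟨x, i, ⟨h1, by omega⟩, rfl, rfl, rfl⟩)
    · exact Or.inr (Or.inr ⟨x, i, ⟨h1, h2⟩, rfl, rfl, rfl⟩)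

theorem length_verts (m q : ℕ) : (verts m q).length = 2 + m + 3 * q * m := by
  unfold verts
  simp only [List.length_append, List.length_map, List.length_product, List.length_range]
  ring

theorem nodup_grid (a b k : ℕ) :
    (((List.range a) ×ˢ (List.range b)).map (Prod.mk k)).Nodup :=
  (List.nodup_range.product List.nodup_range).map (fun _ _ h => (Prod.mk.inj h).2)

theorem nodup_verts (m q : ℕ) : (verts m q).Nodup := by
  unfold verts
  refine List.nodup_append.2 ⟨nodup_grid _ _ _, List.nodup_append.2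
    ⟨nodup_grid _ _ _, nodup_grid _ _ _, ?_⟩, ?_⟩
  · intro v hv w hw h
    obtain ⟨p, _, rfl⟩ := List.mem_map.1 hv
    obtain ⟨p', _, rfl⟩ := List.mem_map.1 hw
    simp at h
  · intro v hv w hw h
    obtain ⟨p, _, rfl⟩ := List.mem_map.1 hv
    rcases List.mem_append.1 hw with hw | hw <;> obtain ⟨p', _, rfl⟩ := List.mem_map.1 hw <;>
      simp at h

/-- adjacency (one direction) -/
def tA (S : List Cd) (v w : Cd) : Bool :=
  (decide (v.1 = 0) && decide (v.2.2 = 0) &&
    ((decide (w.1 = 0) && decide (w.2.2 = 1)) || decide (w.1 = 1))) ||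
  (decide (v.1 = 1) && decide (w.1 = 2) && decide (w.2.1 ∈ el (S.getD v.2.1 (0, 0, 0))))

theorem tA_iff {S : List Cd} {v w : Cd} : tA S v w = true ↔
    (v.1 = 0 ∧ v.2.2 = 0 ∧ ((w.1 = 0 ∧ w.2.2 = 1) ∨ w.1 = 1)) ∨
    (v.1 = 1 ∧ w.1 = 2 ∧ w.2.1 ∈ el (S.getD v.2.1 (0, 0, 0))) := by
  unfold tA
  simp only [Bool.or_eq_true, Bool.and_eq_true, decide_eq_true_eq, and_assoc]

theorem adj_iff {S : List Cd} {v w : Cd} : Adj' (tA S) v w ↔
    ((v.1 = 0 ∧ v.2.2 = 0 ∧ ((w.1 = 0 ∧ w.2.2 = 1) ∨ w.1 = 1)) ∨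
      (w.1 = 0 ∧ w.2.2 = 0 ∧ ((v.1 = 0 ∧ v.2.2 = 1) ∨ v.1 = 1))) ∨
    ((v.1 = 1 ∧ w.1 = 2 ∧ w.2.1 ∈ el (S.getD v.2.1 (0, 0, 0))) ∨
      (w.1 = 1 ∧ v.1 = 2 ∧ v.2.1 ∈ el (S.getD w.2.1 (0, 0, 0)))) := by
  unfold Adj'
  rw [tA_iff, tA_iff]
  constructor
  · rintro ⟨_, (h | h) | (h | h)⟩
    · exact Or.inl (Or.inl h)
    · exact Or.inr (Or.inl h)
    · exact Or.inl (Or.inr h)
    · exact Or.inr (Or.inr h)
  · intro h
    refine ⟨?_, ?_⟩
    · rintro rfl
      omega
    · rcases h with (h | h) | (h | h)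
      · exact Or.inl (Or.inl h)
      · exact Or.inr (Or.inl h)
      · exact Or.inl (Or.inr h)
      · exact Or.inr (Or.inr h)

section Deg

variable {I : List Cd × ℕ} (hI : X3CPr I)

open Classical in
/-- degree of a code -/
noncomputable def dg (I : List Cd × ℕ) (v : Cd) : ℕ :=
  ((verts I.1.length I.2).toFinset.filter (Adj' (tA I.1) v)).card

theorem dg_hub (I : List Cd × ℕ) : dg I (0, 0, 0) = I.1.length + 1 := by
  classical
  unfold dg
  have h : (verts I.1.length I.2).toFinset.filter (Adj' (tA I.1) (0, 0, 0)) =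
      insert (0, 0, 1) ((Finset.range I.1.length).image (fun s => ((1, s, 0) : Cd))) := by
    ext ⟨c, x, i⟩
    simp only [Finset.mem_filter, List.mem_toFinset, mem_verts, adj_iff, Finset.mem_insert,
      Finset.mem_image, Finset.mem_range, Prod.mk.injEq]
    constructor
    · rintro ⟨h1, h2⟩
      rcases h2 with (⟨_, _, ⟨h2, h3⟩ | h2⟩ | ⟨h3, h4, ⟨h5, h6⟩ | h5⟩) | (⟨h3, _⟩ | ⟨_, h3, _⟩)
      · left; omega
      · right; exact ⟨x, by omega, by omega, rfl, by omega⟩
      all_goals omega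
    · rintro (⟨rfl, rfl, rfl⟩ | ⟨s, hs, rfl, rfl, rfl⟩)
      · exact ⟨Or.inl ⟨rfl, rfl, by omega⟩, Or.inl (Or.inl (by simp))⟩
      · exact ⟨Or.inr (Or.inl ⟨rfl, hs, rfl⟩), Or.inl (Or.inl (by simp))⟩
  rw [h, Finset.card_insert_of_notMem (by simp), Finset.card_image_of_injective, Finset.card_range]
  intro a b hab
  simpa using hab

theorem dg_leaf (I : List Cd × ℕ) : dg I (0, 0, 1) ≤ 1 := by
  classical
  unfold dg
  rw [Finset.card_le_one]
  rintro ⟨c, x, i⟩ hv ⟨c', x', i'⟩ hv'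
  simp only [Finset.mem_filter, List.mem_toFinset, mem_verts, adj_iff] at hv hv'
  have h1 : c = 0 ∧ x = 0 ∧ i = 0 := by omega
  have h2 : c' = 0 ∧ x' = 0 ∧ i' = 0 := by omega
  obtain ⟨rfl, rfl, rfl⟩ := h1
  obtain ⟨rfl, rfl, rfl⟩ := h2
  rfl

theorem dg_elem (I : List Cd × ℕ) (x j : ℕ) : dg I (2, x, j) ≤ I.1.length := by
  classical
  unfold dg
  have h : (verts I.1.length I.2).toFinset.filter (Adj' (tA I.1) (2, x, j)) ⊆
      (Finset.range I.1.length).image (fun s => ((1, s, 0) : Cd)) := by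
    rintro ⟨c, y, i⟩ hv
    simp only [Finset.mem_filter, List.mem_toFinset, mem_verts, adj_iff] at hv
    rw [Finset.mem_image]
    obtain ⟨h1, h2⟩ := hv
    have h3 : c = 1 := by
      rcases h2 with h2 | (h2 | h2)
      · omega
      · omega
      · exact h2.1
    refine ⟨y, Finset.mem_range.2 (by omega), ?_⟩
    have : i = 0 := by omega
    rw [h3, this]
  exact (Finset.card_le_card h).trans (Finset.card_image_le.trans (by rw [Finset.card_range]))

include hI in
theorem dg_set {s : ℕ} (hs : s < I.1.length) : dg I (1, s, 0) = 3 * I.1.length + 1 := by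
  classical
  unfold dg
  have hmem := getD_mem' hs
  have h : (verts I.1.length I.2).toFinset.filter (Adj' (tA I.1) (1, s, 0)) =
      insert (0, 0, 0) (((el (I.1.getD s (0, 0, 0))).toFinset ×ˢ Finset.range I.1.length).image
        (fun p => ((2, p.1, p.2) : Cd))) := by
    ext ⟨c, x, i⟩
    simp only [Finset.mem_filter, List.mem_toFinset, mem_verts, adj_iff, Finset.mem_insert,
      Finset.mem_image, Finset.mem_range, Prod.mk.injEq, Finset.mem_product, Prod.exists]
    constructor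
    · rintro ⟨h1, h2⟩
      rcases h2 with (⟨h3, _⟩ | ⟨h3, h4, h5⟩) | (⟨_, h3, h4⟩ | ⟨_, h3, _⟩)
      · omega
      · left; omega
      · right; exact ⟨x, i, ⟨h4, by omega⟩, by omega, rfl, rfl⟩
      · omega
    · rintro (⟨rfl, rfl, rfl⟩ | ⟨a, b, ⟨h1, h2⟩, rfl, rfl, rfl⟩)
      · exact ⟨Or.inl ⟨rfl, rfl, by omega⟩, Or.inl (Or.inr (by simp))⟩
      · exact ⟨Or.inr (Or.inr ⟨rfl, (hI.1 _ hmem).2 _ h1, h2⟩), Or.inr (Or.inl (by simpa using h1))⟩
  rw [h, Finset.card_insert_of_notMem (by simp), Finset.card_image_of_injective,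
    Finset.card_product, Finset.card_range, List.toFinset_card_of_nodup (hI.1 _ hmem).1]
  · rfl
  · rintro ⟨a, b⟩ ⟨a', b'⟩ hab
    simpa using hab

include hI in
theorem dg_le {v : Cd} (hv : v ∈ verts I.1.length I.2) : dg I v ≤ 3 * I.1.length + 1 := by
  obtain ⟨c, x, i⟩ := v
  rcases mem_verts.1 hv with ⟨rfl, rfl, h⟩ | ⟨rfl, h, rfl⟩ | ⟨rfl, h, h'⟩
  · have : i = 0 ∨ i = 1 := by omega
    rcases this with rfl | rfl
    · rw [dg_hub]; omega
    · exact (dg_leaf I).trans (by omega)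
  · exact (dg_set hI h).le
  · exact (dg_elem I x i).trans (by omega)

end Deg

/-! ### The graph on positions -/

/-- the graph of an instance -/
def gr (I : List Cd × ℕ) : SimpleGraph (Fin (verts I.1.length I.2).length) :=
  cgraph (verts I.1.length I.2) (tA I.1)

open Classical in
theorem degree_gr (I : List Cd × ℕ) (v : Fin (verts I.1.length I.2).length) :
    (gr I).degree v = dg I (emb _ (nodup_verts _ _) v) := by
  have h := degIn_univ_eq (verts I.1.length I.2) (nodup_verts _ _) (tA I.1) v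
  unfold dg
  rw [← h]
  unfold degIn
  rw [← SimpleGraph.card_neighborFinset_eq_degree]
  congr 1
  ext w
  simp [gr]

theorem totalDom_iff (I : List Cd × ℕ) (D : Finset (Fin (verts I.1.length I.2).length)) :
    IsTotalDom (gr I) D ↔ ∀ v ∈ verts I.1.length I.2,
      ∃ w ∈ D.map (emb _ (nodup_verts _ _)), Adj' (tA I.1) v w := by
  constructor
  · intro h v hv
    obtain ⟨i, hi, rfl⟩ := List.getElem_of_mem hv
    obtain ⟨w, hw, hvw⟩ := h ⟨i, hi⟩
    exact ⟨_, Finset.mem_map_of_mem _ hw, (cgraph_adj _ (nodup_verts _ _) _ _ _).1 hvw⟩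
  · intro h v
    obtain ⟨w, hw, hvw⟩ := h _ (mem_list_emb _ (nodup_verts _ _) v)
    obtain ⟨w, hw', rfl⟩ := Finset.mem_map.1 hw
    exact ⟨w, hw', (cgraph_adj _ (nodup_verts _ _) _ _ _).2 hvw⟩

theorem noIsolated_gr {I : List Cd × ℕ} (hI : Pr2 I) : NoIsolated (gr I) := by
  intro v
  have h1 := mem_list_emb _ (nodup_verts I.1.length I.2) v
  have hq : 1 ≤ I.2 := hI.1.2.1
  have hm : 1 ≤ I.1.length := hI.1.2.1.trans hI.1.2.2
  have key : ∃ w ∈ verts I.1.length I.2, Adj' (tA I.1) (emb _ (nodup_verts I.1.length I.2) v) w := by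
    revert h1
    generalize emb _ (nodup_verts I.1.length I.2) v = u
    obtain ⟨c, x, i⟩ := u
    intro hu
    rcases mem_verts.1 hu with ⟨rfl, rfl, h⟩ | ⟨rfl, h, rfl⟩ | ⟨rfl, h, h'⟩
    · have : i = 0 ∨ i = 1 := by omega
      rcases this with rfl | rfl
      · exact ⟨(0, 0, 1), mem_verts.2 (by omega), adj_iff.2 (Or.inl (Or.inl ⟨rfl, rfl,
          Or.inl ⟨rfl, rfl⟩⟩))⟩
      · exact ⟨(0, 0, 0), mem_verts.2 (by omega), adj_iff.2 (Or.inl (Or.inr ⟨rfl, rfl,
          Or.inl ⟨rfl, rfl⟩⟩))⟩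
    · exact ⟨(0, 0, 0), mem_verts.2 (by omega), adj_iff.2 (Or.inl (Or.inr ⟨rfl, rfl,
          Or.inr rfl⟩))⟩
    · obtain ⟨s, hs, hx⟩ := hI.2 x h
      exact ⟨(1, s, 0), mem_verts.2 (by omega), adj_iff.2 (Or.inr (Or.inr ⟨rfl, rfl, hx⟩))⟩
  obtain ⟨w, hw, hvw⟩ := key
  obtain ⟨i, hi, rfl⟩ := List.getElem_of_mem hw
  exact ⟨⟨i, hi⟩, (cgraph_adj _ (nodup_verts _ _) _ _ _).2 hvw⟩

/-- the graph is bipartite -/
theorem bipartite_gr (I : List Cd × ℕ) : (gr I).Colorable 2 := by
  let col : Fin (verts I.1.length I.2).length → Bool := fun v =>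
    let u := emb _ (nodup_verts I.1.length I.2) v
    decide (u.1 = 1) || (decide (u.1 = 0) && decide (u.2.2 = 1))
  have hc : ∀ {v w}, (gr I).Adj v w → col v ≠ col w := by
    intro v w h
    have h1 := (cgraph_adj _ (nodup_verts _ _) _ _ _).1 h
    rw [adj_iff] at h1
    simp only [col]
    rcases h1 with (⟨a1, a2, ⟨a3, a4⟩ | a3⟩ | ⟨a1, a2, ⟨a3, a4⟩ | a3⟩) |
      (⟨a1, a2, _⟩ | ⟨a1, a2, _⟩) <;> simp [*]
  exact (SimpleGraph.Coloring.mk col hc).colorable

open Classical in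
/-- the total dominating sets have more than `q` vertices, and those with `q + 1` vertices give
exact covers -/
theorem lower {I : List Cd × ℕ} (hI : Pr2 I) {D : Finset (Fin (verts I.1.length I.2).length)}
    (hD : IsTotalDom (gr I) D) (hc : D.card ≤ I.2 + 1) : X3C I := by
  rw [totalDom_iff] at hD
  have hq : 1 ≤ I.2 := hI.1.2.1
  have hm : 1 ≤ I.1.length := hI.1.2.1.trans hI.1.2.2
  set T := D.map (emb _ (nodup_verts I.1.length I.2)) with hT
  have hTc : T.card = D.card := Finset.card_map _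
  have hTv : ∀ v ∈ T, v ∈ verts I.1.length I.2 := by
    intro v hv
    obtain ⟨i, _, rfl⟩ := Finset.mem_map.1 hv
    exact mem_list_emb _ _ _
  have hhub : ((0, 0, 0) : Cd) ∈ T := by
    obtain ⟨⟨c, x, i⟩, hw, h⟩ := hD (0, 0, 1) (mem_verts.2 (by omega))
    have h1 := mem_verts.1 (hTv _ hw)
    rw [adj_iff] at h
    simp only at h
    have : c = 0 ∧ x = 0 ∧ i = 0 := by omega
    obtain ⟨rfl, rfl, rfl⟩ := this
    exact hw
  let Ss : Finset ℕ := (Finset.range I.1.length).filter (fun s => ((1, s, 0) : Cd) ∈ T)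
  have hSs : Ss.card ≤ I.2 := by
    have h1 : (insert ((0, 0, 0) : Cd) (Ss.image (fun s => ((1, s, 0) : Cd)))).card ≤ T.card := by
      apply Finset.card_le_card
      intro v hv
      rcases Finset.mem_insert.1 hv with rfl | hv
      · exact hhub
      · obtain ⟨s, hs, rfl⟩ := Finset.mem_image.1 hv
        exact (Finset.mem_filter.1 hs).2
    rw [Finset.card_insert_of_notMem (by simp), Finset.card_image_of_injective] at h1
    · omega
    · intro a b hab
      simpa using hab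
  refine x3c_of_cover Ss (fun s hs => Finset.mem_range.1 (Finset.mem_filter.1 hs).1) hSs ?_
  intro a ha
  obtain ⟨⟨c, x, i⟩, hw, h⟩ := hD (2, a, 0) (mem_verts.2 (by omega))
  have h1 := mem_verts.1 (hTv _ hw)
  rw [adj_iff] at h
  simp only at h
  have h2 : c = 1 ∧ a ∈ el (I.1.getD x (0, 0, 0)) := by
    rcases h with h | (h | h)
    · omega
    · omega
    · exact ⟨h.1, h.2.2⟩
  obtain ⟨rfl, h3⟩ := h2
  have h4 : x < I.1.length ∧ i = 0 := by omega
  obtain ⟨h4, rfl⟩ := h4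
  obtain ⟨r, hr, h5⟩ := exists_ec h3
  exact ⟨x, Finset.mem_filter.2 ⟨Finset.mem_range.2 h4, hw⟩, r, hr, h5⟩

/-- a set of codes with `q + 1` elements: the hub and `q` triples -/
def dset (Ss : Finset ℕ) : Finset Cd := insert (0, 0, 0) (Ss.image (fun s => ((1, s, 0) : Cd)))

theorem card_dset (Ss : Finset ℕ) : (dset Ss).card = Ss.card + 1 := by
  unfold dset
  rw [Finset.card_insert_of_notMem (by simp), Finset.card_image_of_injective]
  intro a b hab
  simpa using hab

theorem dset_sub {m q : ℕ} {Ss : Finset ℕ} (h : ∀ s ∈ Ss, s < m) :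
    dset Ss ⊆ (verts m q).toFinset := by
  intro v hv
  rw [List.mem_toFinset]
  rcases Finset.mem_insert.1 hv with rfl | hv
  · exact mem_verts.2 (by omega)
  · obtain ⟨s, hs, rfl⟩ := Finset.mem_image.1 hv
    exact mem_verts.2 (Or.inr (Or.inl ⟨rfl, h s hs, rfl⟩))

theorem upper {I : List Cd × ℕ} (hI : Pr2 I) (hX : X3C I) :
    ∃ D : Finset (Fin (verts I.1.length I.2).length), IsTotalDom (gr I) D ∧ D.card = I.2 + 1 := by
  obtain ⟨Ss, σ, ρ, h1, h2, h3, h4⟩ := cover_of_x3c hX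
  have hq : 1 ≤ I.2 := hI.1.2.1
  obtain ⟨D, hD⟩ := exists_map _ (nodup_verts I.1.length I.2) (dset_sub (q := I.2) h2)
  refine ⟨D, ?_, ?_⟩
  · rw [totalDom_iff, hD]
    have hhub : ((0, 0, 0) : Cd) ∈ dset Ss := Finset.mem_insert_self _ _
    have hset : ∀ s ∈ Ss, ((1, s, 0) : Cd) ∈ dset Ss := fun s hs =>
      Finset.mem_insert_of_mem (Finset.mem_image_of_mem _ hs)
    rintro ⟨c, x, i⟩ hv
    rcases mem_verts.1 hv with ⟨rfl, rfl, h⟩ | ⟨rfl, h, rfl⟩ | ⟨rfl, h, h'⟩
    · have : i = 0 ∨ i = 1 := by omega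
      rcases this with rfl | rfl
      · exact ⟨_, hset _ (h3 0 (by omega)).1, adj_iff.2 (Or.inl (Or.inl ⟨rfl, rfl, Or.inr rfl⟩))⟩
      · exact ⟨_, hhub, adj_iff.2 (Or.inl (Or.inr ⟨rfl, rfl, Or.inl ⟨rfl, rfl⟩⟩))⟩
    · exact ⟨_, hhub, adj_iff.2 (Or.inl (Or.inr ⟨rfl, rfl, Or.inr rfl⟩))⟩
    · obtain ⟨h5, h6, h7⟩ := h3 x h
      refine ⟨_, hset _ h5, adj_iff.2 (Or.inr (Or.inr ⟨rfl, rfl, ?_⟩))⟩
      have h8 := ec_mem (S := I.1) (s := σ x) h6
      rw [h7] at h8
      exact h8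
  · rw [← Finset.card_map (emb _ (nodup_verts I.1.length I.2)), hD, card_dset, h1]

theorem subT_gr {I : List Cd × ℕ} (hI : Pr2 I) : subT (gr I) = I.2 + 1 := by
  classical
  have hq : 1 ≤ I.2 := hI.1.2.1
  have hqm : I.2 ≤ I.1.length := hI.1.2.2
  apply le_antisymm
  · -- hub and the first `q` triples
    obtain ⟨D, hD⟩ := exists_map _ (nodup_verts I.1.length I.2)
      (dset_sub (q := I.2) (Ss := Finset.range I.2) (m := I.1.length)
        (fun s hs => (Finset.mem_range.1 hs).trans_le hqm))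
    have hc : D.card = I.2 + 1 := by
      rw [← Finset.card_map (emb _ (nodup_verts I.1.length I.2)), hD, card_dset, Finset.card_range]
    have hs : ∑ v ∈ D, (gr I).degree v = (I.1.length + 1) + I.2 * (3 * I.1.length + 1) := by
      have e1 : ∑ v ∈ D, (gr I).degree v = ∑ u ∈ D.map (emb _ (nodup_verts I.1.length I.2)), dg I u := by
        rw [Finset.sum_map]
        exact Finset.sum_congr rfl fun v _ => by rw [← degree_gr]
      rw [e1, hD, dset, Finset.sum_insert (by simp), dg_hub, Finset.sum_image]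
      · rw [Finset.sum_congr rfl (g := fun _ => 3 * I.1.length + 1) fun s hs => ?_,
          Finset.sum_const, Finset.card_range, smul_eq_mul]
        exact dg_set hI.1 ((Finset.mem_range.1 hs).trans_le hqm)
      · intro a _ b _ hab
        simpa using hab
    have h1 := sum_degree_le (gr I) D
    rw [hc] at h1
    refine Nat.sInf_le ?_
    show (verts I.1.length I.2).length ≤ _
    have e2 : (verts I.1.length I.2).length ≤
        (I.1.length + 1) + I.2 * (3 * I.1.length + 1) := by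
      rw [length_verts]
      have : I.2 * (3 * I.1.length + 1) = 3 * I.2 * I.1.length + I.2 := by ring
      omega
    rw [← hs] at e2
    exact e2.trans (by convert! h1)
  · have hD : IsTotalDom (gr I) Finset.univ := fun v => by
      obtain ⟨w, hw⟩ := noIsolated_gr hI v
      exact ⟨w, Finset.mem_univ _, hw⟩
    rw [le_subT_iff (gr I) hD]
    have hmax : ∀ x ∈ degSeq (gr I), x ≤ 3 * I.1.length + 1 := by
      intro x hx
      have h1 := (degSeq_perm (gr I)).mem_iff.1 hx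
      obtain ⟨v, _, rfl⟩ := List.mem_map.1 h1
      rw [degree_gr]
      exact dg_le hI.1 (mem_list_emb _ _ _)
    refine (take_sum_le hmax I.2).trans_lt ?_
    rw [length_verts]
    have : I.2 * (3 * I.1.length + 1) = 3 * I.2 * I.1.length + I.2 := by ring
    omega

theorem gr_iff {I : List Cd × ℕ} (hI : Pr2 I) : X3C I ↔ gammaT (gr I) = subT (gr I) := by
  rw [eq_iff _ (noIsolated_gr hI), subT_gr hI]
  constructor
  · intro hX
    obtain ⟨D, hD, hc⟩ := upper hI hX
    exact ⟨D, hD, hc.le⟩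
  · rintro ⟨D, hD, hc⟩
    exact lower hI hD hc

/-! ### The reduction is polynomial -/

/-- the reduction -/
def red (I : List Cd × ℕ) : FinGraph :=
  ⟨(verts I.1.length (cap I)).length, cgraph (verts I.1.length (cap I)) (tA I.1)⟩

theorem poly_grid {a b : List Cd × ℕ → ℕ} (ha : UPoly a) (hb : UPoly b) (k : ℕ) :
    Poly (fun I => ((List.range (a I)) ×ˢ (List.range (b I))).map (Prod.mk k)) := by
  have h1 := ha.range
  have h2 := hb.range
  exact NPC.Poly.map (F := fun _ (p : ℕ × ℕ) => (k, p)) (R671.poly_product h1 h2) (by fun_prop)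

theorem poly_red : Poly red := by
  unfold red
  refine poly_cgraph ?_ ?_
  · unfold verts
    exact Poly.append (poly_grid (UPoly.const 1) (UPoly.const 2) 0)
      (Poly.append (poly_grid uPoly_len (UPoly.const 1) 1)
        (poly_grid ((UPoly.const 3).mul uPoly_cap) uPoly_len 2))
  · unfold tA el
    fun_prop

theorem red_eq {I : List Cd × ℕ} (hI : Pr2 I) : red I = ⟨_, gr I⟩ := by
  unfold red gr
  rw [cap_eq hI.1]

/-- The promise: the graph has no isolated vertices and is bipartite. -/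
def Good (G : FinGraph) : Prop := NoIsolated G.graph ∧ G.graph.Colorable 2

theorem hard : HardPr Good TDSEQ := by
  refine hardPr_X3C2.trans poly_red ?_ ?_
  · intro I hI
    rw [red_eq hI]
    exact ⟨noIsolated_gr hI, bipartite_gr I⟩
  · intro I hI
    rw [red_eq hI, gr_iff hI]
    exact ⟨fun h => ⟨noIsolated_gr hI, h⟩, fun h => h.2⟩

end Pool.Agent.D0H57.TDS
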